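import Pool.Agent.L7h69.Look.Defs

set_option autoImplicit false

namespace Pool.Agent.L7h69.Look

open Finset

section basic

variable {ι : Type} [Fintype ι] [DecidableEq ι] {M : Mech ι}

lemma Mech.Valid.pay_le (h : M.Valid) {v : ι → ℝ} (hv : Pos v) (i : ι) :
    M.pay v i ≤ M.alloc v i * v i := by
  have := h.ir v hv i
  linarith

omit [Fintype ι] in
lemma pos_update {v : ι → ℝ} (hv : Pos v) (i : ι) {b : ℝ} (hb : 0 < b) :
    Pos (Function.update v i b) := by
  intro j
  by_cases hj : j = i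
  · subst hj; simpa using hb
  · simpa [Function.update_of_ne hj] using hv j

/-- `v` and `w` differ only in coordinate `i`. -/
lemma Mech.Valid.step (h : M.Valid) {v w : ι → ℝ} (hv : Pos v) (hw : Pos w) (i : ι)
    (hvw : ∀ j, j ≠ i → v j = w j) :
    M.pay w i ≤ M.pay v i + (M.alloc w i - M.alloc v i) * w i := by
  have e : Function.update w i (v i) = v := by
    funext j
    by_cases hj : j = i
    · subst hj; simp
    · simp [Function.update_of_ne hj, hvw j hj]
  have := h.truthful w hw i (v i) (hv i)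
  rw [e] at this
  linarith

lemma Mech.Valid.mono (h : M.Valid) {v w : ι → ℝ} (hv : Pos v) (hw : Pos w) (i : ι)
    (hvw : ∀ j, j ≠ i → v j = w j) (hlt : v i < w i) :
    M.alloc v i ≤ M.alloc w i := by
  have h1 := h.step hv hw i hvw
  have h2 := h.step hw hv i (fun j hj => (hvw j hj).symm)
  nlinarith

lemma Mech.Valid.alloc_sum_le (h : M.Valid) {v : ι → ℝ} (hv : Pos v) :
    ∑ i, M.alloc v i ≤ 1 := h.alloc_sum v hv

end basic

/-- Labels of ordinary bidders. -/
noncomputable def lab (δ : ℝ) (m : ℕ) : ℝ := 1 + δ * (m + 1)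

/-- The value vector of the first `k` bidders: bidder `j` has value `x`, bidder `i ≠ j` has
the value with label `l i`. -/
noncomputable def vec {k : ℕ} (δ : ℝ) (j : Fin k) (x : ℝ) (l : Fin k → ℕ) : Fin k → ℝ :=
  fun i => if i = j then x else lab δ (l i)

/-- Label vectors with sum `m` (and label `0` for bidder `j`). -/
def comp {k : ℕ} (j : Fin k) (m : ℕ) : Finset (Fin k → ℕ) := piAntidiag (univ.erase j) m

lemma mem_comp {k : ℕ} {j : Fin k} {m : ℕ} {l : Fin k → ℕ} :
    l ∈ comp j m ↔ ∑ i ∈ univ.erase j, l i = m ∧ l j = 0 := by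
  unfold comp
  rw [mem_piAntidiag]
  constructor
  · rintro ⟨h1, h2⟩
    refine ⟨h1, ?_⟩
    by_contra h
    exact absurd (h2 j h) (by simp)
  · rintro ⟨h1, h2⟩
    refine ⟨h1, ?_⟩
    intro i hi
    simp only [mem_erase, mem_univ, and_true]
    rintro rfl
    exact hi h2

lemma comp_le {k : ℕ} {j : Fin k} {m : ℕ} {l : Fin k → ℕ} (h : l ∈ comp j m) {i : Fin k}
    (hi : i ≠ j) : l i ≤ m := by
  rw [mem_comp] at h
  rw [← h.1]
  exact single_le_sum (f := l) (fun _ _ => Nat.zero_le _) (by simp [hi])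

lemma add_single_mem {k : ℕ} {j : Fin k} {m : ℕ} {l : Fin k → ℕ} (h : l ∈ comp j m) {i : Fin k}
    (hi : i ≠ j) : l + Pi.single i 1 ∈ comp j (m + 1) := by
  rw [mem_comp] at h ⊢
  obtain ⟨h1, h2⟩ := h
  constructor
  · simp only [Pi.add_apply, sum_add_distrib, h1]
    congr 1
    rw [Finset.sum_pi_single']
    simp [hi]
  · simp [h2, Ne.symm hi]

lemma card_comp {k : ℕ} (j : Fin k) (m : ℕ) : (comp j m).card = (k - 1 + m - 1).choose m := by
  have h := Finset.card_finsuppAntidiag_nat_eq_choose (s := (univ : Finset (Fin k)).erase j) m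
  have e : (comp j m).card = (Finset.finsuppAntidiag ((univ : Finset (Fin k)).erase j) m).card := by
    simp [comp, Finset.finsuppAntidiag]
  rw [e, h]
  simp [card_erase_of_mem]

lemma vec_pos {k : ℕ} {δ : ℝ} (hδ : 0 < δ) (j : Fin k) {x : ℝ} (hx : 0 < x) (l : Fin k → ℕ) :
    Pos (vec δ j x l) := by
  intro i
  unfold vec lab
  split_ifs
  · exact hx
  · positivity

section bound

variable {k : ℕ} {M : Mech (Fin k)} {δ τ H : ℝ} {s : ℕ}

/-- The main estimate: one fixed `j`. -/
lemma bound_j (h : M.Valid) (hδ : 0 < δ) (hτ : δ * (s + 2) ≤ τ) (hH : 2 < H) (j : Fin k) :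
    (∑ l ∈ comp j (s + 1), (1 / 2 : ℝ) * ∑ i, M.pay (vec δ j 2 l) i) +
      (∑ l ∈ comp j s, (1 / 2 : ℝ) * ∑ i, M.pay (vec δ j 2 l) i) +
      (∑ l ∈ comp j s, (1 / H : ℝ) * ∑ i, M.pay (vec δ j H l) i) ≤
    (1 + τ) * (comp j (s + 1)).card + (1 + 2 / H) * (1 + τ) * (comp j s).card := by
  have hH0 : 0 < H := by linarith
  have hτ0 : 0 < τ := lt_of_lt_of_le (by positivity) hτ
  have hlab : ∀ m : ℕ, m ≤ s + 1 → lab δ m ≤ 1 + τ := by
    intro m hm
    unfold lab
    have : (m : ℝ) + 1 ≤ s + 2 := by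
      have : (m : ℝ) ≤ s + 1 := by exact_mod_cast hm
      linarith
    nlinarith
  have hp2 : ∀ l, Pos (vec δ j 2 l) := fun l => vec_pos hδ j (by norm_num) l
  have hpH : ∀ l, Pos (vec δ j H l) := fun l => vec_pos hδ j hH0 l
  have hvi : ∀ (x : ℝ) (l : Fin k → ℕ) (i : Fin k), i ≠ j → vec δ j x l i = lab δ (l i) := by
    intro x l i hi; simp [vec, hi]
  have hvj : ∀ (x : ℝ) (l : Fin k → ℕ), vec δ j x l j = x := by
    intro x l; simp [vec]
  -- the ordinary bidders, special value `2`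
  have key1 : ∀ i, i ≠ j →
      (∑ l ∈ comp j (s + 1), (1 / 2 : ℝ) * M.pay (vec δ j 2 l) i) +
        (∑ l ∈ comp j s, (1 / 2 : ℝ) * M.pay (vec δ j 2 l) i) ≤
      (1 + τ) * ∑ l ∈ comp j (s + 1), M.alloc (vec δ j 2 l) i := by
    intro i hi
    set q : (Fin k → ℕ) → ℝ := fun l =>
      (1 + τ) * M.alloc (vec δ j 2 l) i - 1 / 2 * M.pay (vec δ j 2 l) i with hq
    have hq0 : ∀ l ∈ comp j (s + 1), 0 ≤ q l := by
      intro l hl
      have h1 := h.pay_le (hp2 l) i
      rw [hvi 2 l i hi] at h1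
      have h2 := hlab (l i) (comp_le hl hi)
      have h3 := h.alloc_nonneg _ (hp2 l) i
      have h4 : M.alloc (vec δ j 2 l) i * lab δ (l i) ≤ M.alloc (vec δ j 2 l) i * (1 + τ) :=
        mul_le_mul_of_nonneg_left h2 h3
      have h5 : 0 ≤ M.alloc (vec δ j 2 l) i * (1 + τ) := by positivity
      simp only [hq]
      linarith
    have hstep : ∀ l ∈ comp j s, (1 / 2 : ℝ) * M.pay (vec δ j 2 l) i ≤ q (l + Pi.single i 1) := by
      intro l hl
      set l' := l + Pi.single i 1 with hl'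
      have hne : ∀ a, a ≠ i → vec δ j 2 l a = vec δ j 2 l' a := by
        intro a ha
        by_cases haj : a = j
        · subst haj; simp [vec]
        · simp [vec, haj, hl', ha]
      have e1 : vec δ j 2 l i = lab δ (l i) := hvi 2 l i hi
      have e2 : vec δ j 2 l' i = lab δ (l i + 1) := by
        rw [hvi 2 l' i hi]; simp [hl']
      have hlt : vec δ j 2 l i < vec δ j 2 l' i := by
        rw [e1, e2]; unfold lab; push_cast; nlinarith
      have s1 := h.step (hp2 l) (hp2 l') i hne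
      have s2 := h.mono (hp2 l) (hp2 l') i hne hlt
      have s3 := h.pay_le (hp2 l) i
      have s4 := h.alloc_nonneg _ (hp2 l) i
      rw [e2] at s1
      rw [e1] at s3
      have t1 := hlab (l i) ((comp_le hl hi).trans (Nat.le_succ _))
      have t2 := hlab (l i + 1) (by have := comp_le hl hi; omega)
      have u1 : (M.alloc (vec δ j 2 l') i - M.alloc (vec δ j 2 l) i) * lab δ (l i + 1) ≤
          (M.alloc (vec δ j 2 l') i - M.alloc (vec δ j 2 l) i) * (1 + τ) :=
        mul_le_mul_of_nonneg_left t2 (by linarith)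
      have u2 : M.alloc (vec δ j 2 l) i * lab δ (l i) ≤ M.alloc (vec δ j 2 l) i * (1 + τ) :=
        mul_le_mul_of_nonneg_left t1 s4
      have u3 : 0 ≤ (M.alloc (vec δ j 2 l') i - M.alloc (vec δ j 2 l) i) * (1 + τ) :=
        mul_nonneg (by linarith) (by linarith)
      simp only [hq]
      nlinarith
    have hinj : Set.InjOn (fun l : Fin k → ℕ => l + Pi.single i 1) (comp j s : Set (Fin k → ℕ)) :=
      fun a _ b _ hab => by simpa using hab
    calc (∑ l ∈ comp j (s + 1), (1 / 2 : ℝ) * M.pay (vec δ j 2 l) i) +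
          (∑ l ∈ comp j s, (1 / 2 : ℝ) * M.pay (vec δ j 2 l) i)
        ≤ (∑ l ∈ comp j (s + 1), (1 / 2 : ℝ) * M.pay (vec δ j 2 l) i) +
          ∑ l ∈ comp j s, q (l + Pi.single i 1) := by
            gcongr with l hl
            exact hstep l hl
      _ = (∑ l ∈ comp j (s + 1), (1 / 2 : ℝ) * M.pay (vec δ j 2 l) i) +
          ∑ l ∈ (comp j s).image (fun l : Fin k → ℕ => l + Pi.single i 1), q l := by
            rw [sum_image hinj]
      _ ≤ (∑ l ∈ comp j (s + 1), (1 / 2 : ℝ) * M.pay (vec δ j 2 l) i) +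
          ∑ l ∈ comp j (s + 1), q l := by
            refine add_le_add le_rfl (sum_le_sum_of_subset_of_nonneg ?_ ?_)
            · intro l hl
              rw [mem_image] at hl
              obtain ⟨l0, h0, rfl⟩ := hl
              exact add_single_mem h0 hi
            · intro l hl _
              exact hq0 l hl
      _ = (1 + τ) * ∑ l ∈ comp j (s + 1), M.alloc (vec δ j 2 l) i := by
            rw [← sum_add_distrib, mul_sum]
            apply sum_congr rfl
            intro l _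
            simp only [hq]
            ring
  -- the special bidder, upper layer
  have key2 : (∑ l ∈ comp j (s + 1), (1 / 2 : ℝ) * M.pay (vec δ j 2 l) j) ≤
      (1 + τ) * ∑ l ∈ comp j (s + 1), M.alloc (vec δ j 2 l) j := by
    rw [mul_sum]
    apply sum_le_sum
    intro l _
    have h1 := h.pay_le (hp2 l) j
    rw [hvj] at h1
    have h2 := h.alloc_nonneg _ (hp2 l) j
    nlinarith
  -- the special bidder, lower layer
  have key3 : (∑ l ∈ comp j s, (1 / 2 : ℝ) * M.pay (vec δ j 2 l) j) +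
      (∑ l ∈ comp j s, (1 / H : ℝ) * M.pay (vec δ j H l) j) ≤
      (1 + 2 / H) * (1 + τ) * ∑ l ∈ comp j s, M.alloc (vec δ j H l) j := by
    rw [← sum_add_distrib, mul_sum]
    apply sum_le_sum
    intro l _
    have hne : ∀ a, a ≠ j → vec δ j 2 l a = vec δ j H l a := by
      intro a ha; simp [vec, ha]
    have s1 := h.step (hp2 l) (hpH l) j hne
    have s2 := h.mono (hp2 l) (hpH l) j hne (by rw [hvj, hvj]; exact hH)
    have s3 := h.pay_le (hp2 l) j
    have s4 := h.alloc_nonneg _ (hp2 l) j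
    rw [hvj] at s1 s3
    have s5 : 0 ≤ M.alloc (vec δ j H l) j := s4.trans s2
    have u1 : 1 / H * M.pay (vec δ j H l) j ≤ 1 / H * M.pay (vec δ j 2 l) j +
        (M.alloc (vec δ j H l) j - M.alloc (vec δ j 2 l) j) := by
      have : 1 / H * M.pay (vec δ j H l) j ≤ 1 / H * (M.pay (vec δ j 2 l) j +
        (M.alloc (vec δ j H l) j - M.alloc (vec δ j 2 l) j) * H) :=
        mul_le_mul_of_nonneg_left s1 (by positivity)
      refine this.trans (le_of_eq ?_)
      field_simp
    have u2 : (1 / 2 + 1 / H) * M.pay (vec δ j 2 l) j ≤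
        (1 / 2 + 1 / H) * (M.alloc (vec δ j 2 l) j * 2) :=
      mul_le_mul_of_nonneg_left s3 (by positivity)
    have u3 : 2 / H * M.alloc (vec δ j 2 l) j ≤ 2 / H * M.alloc (vec δ j H l) j :=
      mul_le_mul_of_nonneg_left s2 (by positivity)
    have u4 : 0 ≤ (1 + 2 / H) * τ * M.alloc (vec δ j H l) j := by positivity
    have e1 : (1 / 2 + 1 / H) * (M.alloc (vec δ j 2 l) j * 2) =
        M.alloc (vec δ j 2 l) j + 2 / H * M.alloc (vec δ j 2 l) j := by ring
    nlinarith
  -- the ordinary bidders, special value `H`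
  have key4 : ∀ i, i ≠ j → (∑ l ∈ comp j s, (1 / H : ℝ) * M.pay (vec δ j H l) i) ≤
      (1 + 2 / H) * (1 + τ) * ∑ l ∈ comp j s, M.alloc (vec δ j H l) i := by
    intro i hi
    rw [mul_sum]
    apply sum_le_sum
    intro l hl
    have h1 := h.pay_le (hpH l) i
    rw [hvi H l i hi] at h1
    have h2 := hlab (l i) ((comp_le hl hi).trans (Nat.le_succ _))
    have h3 := h.alloc_nonneg _ (hpH l) i
    have h4 : M.alloc (vec δ j H l) i * lab δ (l i) ≤ M.alloc (vec δ j H l) i * (1 + τ) :=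
      mul_le_mul_of_nonneg_left h2 h3
    have h5 : 1 / H * M.pay (vec δ j H l) i ≤ 1 / H * (M.alloc (vec δ j H l) i * (1 + τ)) :=
      mul_le_mul_of_nonneg_left (h1.trans h4) (by positivity)
    have h6 : 1 / H * (M.alloc (vec δ j H l) i * (1 + τ)) ≤
        (1 + 2 / H) * (M.alloc (vec δ j H l) i * (1 + τ)) := by
      apply mul_le_mul_of_nonneg_right _ (by positivity)
      have : 1 / H ≤ 1 := by rw [div_le_one hH0]; linarith
      have : 0 < 2 / H := by positivity
      linarith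
    linarith
  -- summing up
  have e1 : (∑ l ∈ comp j (s + 1), (1 / 2 : ℝ) * ∑ i, M.pay (vec δ j 2 l) i) =
      ∑ i, ∑ l ∈ comp j (s + 1), (1 / 2 : ℝ) * M.pay (vec δ j 2 l) i := by
    rw [sum_comm]; apply sum_congr rfl; intro l _; rw [mul_sum]
  have e2 : (∑ l ∈ comp j s, (1 / 2 : ℝ) * ∑ i, M.pay (vec δ j 2 l) i) =
      ∑ i, ∑ l ∈ comp j s, (1 / 2 : ℝ) * M.pay (vec δ j 2 l) i := by
    rw [sum_comm]; apply sum_congr rfl; intro l _; rw [mul_sum]
  have e3 : (∑ l ∈ comp j s, (1 / H : ℝ) * ∑ i, M.pay (vec δ j H l) i) =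
      ∑ i, ∑ l ∈ comp j s, (1 / H : ℝ) * M.pay (vec δ j H l) i := by
    rw [sum_comm]; apply sum_congr rfl; intro l _; rw [mul_sum]
  rw [e1, e2, e3, ← sum_add_distrib, ← sum_add_distrib]
  calc _ ≤ ∑ i, ((1 + τ) * (∑ l ∈ comp j (s + 1), M.alloc (vec δ j 2 l) i) +
        (1 + 2 / H) * (1 + τ) * ∑ l ∈ comp j s, M.alloc (vec δ j H l) i) := by
        apply sum_le_sum
        intro i _
        by_cases hi : i = j
        · subst hi
          linarith [key2, key3]
        · linarith [key1 i hi, key4 i hi]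
    _ = (1 + τ) * (∑ l ∈ comp j (s + 1), ∑ i, M.alloc (vec δ j 2 l) i) +
        (1 + 2 / H) * (1 + τ) * ∑ l ∈ comp j s, ∑ i, M.alloc (vec δ j H l) i := by
        rw [sum_add_distrib, ← mul_sum, ← mul_sum, sum_comm, sum_comm (s := univ) (t := comp j s)]
    _ ≤ (1 + τ) * (∑ l ∈ comp j (s + 1), (1 : ℝ)) +
        (1 + 2 / H) * (1 + τ) * ∑ l ∈ comp j s, (1 : ℝ) := by
        have a1 : (∑ l ∈ comp j (s + 1), ∑ i, M.alloc (vec δ j 2 l) i) ≤
            ∑ l ∈ comp j (s + 1), (1 : ℝ) := sum_le_sum fun l _ => h.alloc_sum _ (hp2 l)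
        have a2 : (∑ l ∈ comp j s, ∑ i, M.alloc (vec δ j H l) i) ≤
            ∑ l ∈ comp j s, (1 : ℝ) := sum_le_sum fun l _ => h.alloc_sum _ (hpH l)
        gcongr
    _ = _ := by simp

end bound

end Pool.Agent.L7h69.Look
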