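import Mathlib

set_option autoImplicit false

/-!
Definitions for the revenue of the `k`-lookahead auction with correlated bidders
(problem MP_0f9109_lc).
-/

namespace Pool.Agent.L7h69.Look

open Finset

/-- A vector of valuations (or bids), one for each bidder `i : ι`, all of them positive. -/
def Pos {ι : Type} (v : ι → ℝ) : Prop := ∀ i, 0 < v i

/-- A direct mechanism for one item and the bidders `i : ι`: on the bid vector `v` bidder `i` gets
the item with probability `alloc v i` and makes the expected payment `pay v i`. -/
structure Mech (ι : Type) where
  alloc : (ι → ℝ) → ι → ℝ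
  pay : (ι → ℝ) → ι → ℝ

/-- The mechanism is feasible, truthful in expectation and individually rational, on the domain of
all positive bid vectors. -/
structure Mech.Valid {ι : Type} [Fintype ι] [DecidableEq ι] (M : Mech ι) : Prop where
  /-- allocation probabilities are nonnegative -/
  alloc_nonneg : ∀ v, Pos v → ∀ i, 0 ≤ M.alloc v i
  /-- at most one item is sold -/
  alloc_sum : ∀ v, Pos v → ∑ i, M.alloc v i ≤ 1
  /-- no bidder raises her expected utility by reporting `b` in place of her value `v i` -/
  truthful : ∀ v, Pos v → ∀ i b, 0 < b →
    M.alloc (Function.update v i b) i * v i - M.pay (Function.update v i b) i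
      ≤ M.alloc v i * v i - M.pay v i
  /-- all utilities are nonnegative -/
  ir : ∀ v, Pos v → ∀ i, 0 ≤ M.alloc v i * v i - M.pay v i

/-- A finitely supported joint distribution of the valuations of `n` bidders, given as the law of a
random vector `val` of positive reals on a finite probability space `Ω` with point
probabilities `prob`.  The coordinates may be correlated in an arbitrary way. -/
structure Dist (n : ℕ) where
  Ω : Type
  [fin : Fintype Ω]
  prob : Ω → ℝ
  val : Ω → Fin n → ℝ
  prob_pos : ∀ ω, 0 < prob ω
  prob_sum : ∑ ω, prob ω = 1
  val_pos : ∀ ω, Pos (val ω)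

attribute [instance] Dist.fin

/-- The expected revenue of the mechanism `M` for all `n` bidders under the distribution `D`. -/
noncomputable def Dist.revenue {n : ℕ} (D : Dist n) (M : Mech (Fin n)) : ℝ :=
  ∑ ω, D.prob ω * ∑ i, M.pay (D.val ω) i

/-- The optimal revenue `OPT(D)`: the supremum of the expected revenues of all feasible mechanisms
that are truthful in expectation and individually rational. -/
noncomputable def Dist.OPT {n : ℕ} (D : Dist n) : ℝ :=
  sSup {r : ℝ | ∃ M : Mech (Fin n), M.Valid ∧ r = D.revenue M}

open Classical in
/-- The set of the `k` highest bidders, ties broken by index: those bidders `i` for which fewer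
than `k` bidders `j` have `v j > v i`, or `v j = v i` and `j < i`. -/
noncomputable def top {n : ℕ} (k : ℕ) (v : Fin n → ℝ) : Finset (Fin n) :=
  univ.filter fun i => (univ.filter fun j => v i < v j ∨ (v i = v j ∧ j < i)).card < k

open Classical in
/-- Given a set `K` of bidders and values `c` of the bidders outside `K`, the event that the bidders
outside `K` have the values `c` and that every bidder in `K` has a value at least as large as every
entry of `c`. -/
noncomputable def Dist.event {n : ℕ} (D : Dist n) (K : Finset (Fin n))
    (c : {j : Fin n // j ∉ K} → ℝ) : Finset D.Ω :=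
  univ.filter fun ω =>
    (∀ j : {j : Fin n // j ∉ K}, D.val ω j = c j) ∧
      ∀ i ∈ K, ∀ j : {j : Fin n // j ∉ K}, c j ≤ D.val ω i

/-- The expected revenue of a mechanism `M` for the bidders in `K` under the distribution `D_K`: the
distribution of the values of the bidders in `K` conditioned on the event above. -/
noncomputable def Dist.condRevenue {n : ℕ} (D : Dist n) (K : Finset (Fin n))
    (c : {j : Fin n // j ∉ K} → ℝ) (M : Mech {i : Fin n // i ∈ K}) : ℝ :=
  (∑ ω ∈ D.event K c, D.prob ω * ∑ i, M.pay (fun i' => D.val ω i') i) /
    ∑ ω ∈ D.event K c, D.prob ω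

/-- A rule that chooses a mechanism for the bidders in `K`, for every set `K` of bidders and all
values of the bidders outside `K`. -/
abbrev Rule (n : ℕ) : Type :=
  (K : Finset (Fin n)) → ({j : Fin n // j ∉ K} → ℝ) → Mech {i : Fin n // i ∈ K}

/-- `A` is a `k`-lookahead rule for `D`: whenever the `k` highest bidders are `K` and the others have
the values `c`, the mechanism `A K c` is feasible, truthful in expectation, individually rational,
and it maximises the expected revenue under `D_K` among all such mechanisms for `K`. -/
def IsLookahead {n : ℕ} (k : ℕ) (D : Dist n) (A : Rule n) : Prop :=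
  ∀ ω : D.Ω,
    (A (top k (D.val ω)) fun j => D.val ω j).Valid ∧
      ∀ M : Mech {i : Fin n // i ∈ top k (D.val ω)}, M.Valid →
        D.condRevenue (top k (D.val ω)) (fun j => D.val ω j) M ≤
          D.condRevenue (top k (D.val ω)) (fun j => D.val ω j)
            (A (top k (D.val ω)) fun j => D.val ω j)

/-- The expected revenue under `D` when the `k` highest bidders `K` are served by `A K c`, where `c`
are the values of the others, who receive and pay nothing. -/
noncomputable def Dist.ruleRevenue {n : ℕ} (D : Dist n) (k : ℕ) (A : Rule n) : ℝ :=
  ∑ ω, D.prob ω *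
    ∑ i, (A (top k (D.val ω)) fun j => D.val ω j).pay (fun i' => D.val ω i') i

/-- The expected revenue `rev_k(D)` of the `k`-lookahead mechanism (the largest one, in case it
depends on the choice of the revenue-maximising mechanisms for the distributions `D_K`). -/
noncomputable def Dist.rev {n : ℕ} (D : Dist n) (k : ℕ) : ℝ :=
  sSup {r : ℝ | ∃ A : Rule n, IsLookahead k D A ∧ r = D.ruleRevenue k A}

/-- The approximation ratio `ρ_k` of the `k`-lookahead mechanism: the infimum of
`rev_k(D) / OPT(D)` over all numbers `n` of bidders and all finitely supported distributions `D`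
with `OPT(D) > 0`. -/
noncomputable def rho (k : ℕ) : ℝ :=
  sInf {r : ℝ | ∃ (n : ℕ) (D : Dist n), 0 < D.OPT ∧ r = D.rev k / D.OPT}

end Pool.Agent.L7h69.Look
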