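import Pool.Agent.L7h69.Look.Bound

set_option autoImplicit false

namespace Pool.Agent.L7h69.Look

open Finset

/-! ### Reindexing mechanisms -/

/-- Transport of a mechanism along a bijection of the bidders. -/
def Mech.reindex {ι κ : Type} (e : κ ≃ ι) (M : Mech ι) : Mech κ where
  alloc v i := M.alloc (v ∘ e.symm) (e i)
  pay v i := M.pay (v ∘ e.symm) (e i)

lemma Mech.Valid.reindex {ι κ : Type} [Fintype ι] [DecidableEq ι] [Fintype κ] [DecidableEq κ]
    (e : κ ≃ ι) {M : Mech ι} (h : M.Valid) : (M.reindex e).Valid := by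
  have hpos : ∀ v : κ → ℝ, Pos v → Pos (v ∘ e.symm) := fun v hv i => hv _
  refine ⟨fun v hv i => h.alloc_nonneg _ (hpos v hv) _, fun v hv => ?_, fun v hv i b hb => ?_,
    fun v hv i => ?_⟩
  · have := h.alloc_sum _ (hpos v hv)
    rw [← Equiv.sum_comp e] at this
    exact this
  · have := h.truthful _ (hpos v hv) (e i) b hb
    have e1 : Function.update v i b ∘ e.symm = Function.update (v ∘ e.symm) (e i) b := by
      funext a
      by_cases ha : a = e i
      · subst ha; simp
      · have : e.symm a ≠ i := fun h' => ha (by rw [← h']; simp)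
        simp [Function.update_of_ne ha, Function.update_of_ne this]
    simp only [Mech.reindex, e1]
    simpa using this
  · have := h.ir _ (hpos v hv) (e i)
    simpa [Mech.reindex] using this

/-! ### Posted price mechanisms -/

open Classical in
/-- The mechanism that offers the item to `i` for the price `pr v i` if `off v i` holds. -/
noncomputable def posted {ι : Type} (off : (ι → ℝ) → ι → Prop) (pr : (ι → ℝ) → ι → ℝ) :
    Mech ι where
  alloc v i := if off v i ∧ pr v i ≤ v i then 1 else 0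
  pay v i := if off v i ∧ pr v i ≤ v i then pr v i else 0

section posted_lemmas

variable {ι : Type} {off : (ι → ℝ) → ι → Prop} {pr : (ι → ℝ) → ι → ℝ} {v : ι → ℝ} {i : ι}

lemma posted_alloc_pos (h1 : off v i) (h2 : pr v i ≤ v i) : (posted off pr).alloc v i = 1 := by
  simp only [posted]; exact if_pos ⟨h1, h2⟩

lemma posted_pay_pos (h1 : off v i) (h2 : pr v i ≤ v i) :
    (posted off pr).pay v i = pr v i := by
  simp only [posted]; exact if_pos ⟨h1, h2⟩

lemma posted_alloc_neg (h : ¬ (off v i ∧ pr v i ≤ v i)) : (posted off pr).alloc v i = 0 := by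
  simp only [posted]; exact if_neg h

lemma posted_pay_neg (h : ¬ (off v i ∧ pr v i ≤ v i)) : (posted off pr).pay v i = 0 := by
  simp only [posted]; exact if_neg h

end posted_lemmas

lemma posted_valid {ι : Type} [Fintype ι] [DecidableEq ι] (off : (ι → ℝ) → ι → Prop)
    (pr : (ι → ℝ) → ι → ℝ)
    (hoff : ∀ v i b, off (Function.update v i b) i ↔ off v i)
    (hpr : ∀ v i b, pr (Function.update v i b) i = pr v i)
    (huniq : ∀ v, Pos v → ∀ i j, (off v i ∧ pr v i ≤ v i) → (off v j ∧ pr v j ≤ v j) → i = j) :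
    (posted off pr).Valid := by
  refine ⟨fun v hv i => ?_, fun v hv => ?_, fun v hv i b hb => ?_, fun v hv i => ?_⟩
  · simp only [posted]; split_ifs <;> norm_num
  · simp only [posted]
    by_cases hex : ∃ i, off v i ∧ pr v i ≤ v i
    · obtain ⟨i, hi⟩ := hex
      rw [sum_eq_single i]
      · rw [if_pos hi]
      · intro j _ hj
        rw [if_neg]
        intro hj'
        exact hj (huniq v hv j i hj' hi)
      · simp
    · push Not at hex
      rw [sum_eq_zero]
      · norm_num
      · intro i _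
        rw [if_neg]
        rintro ⟨h1, h2⟩
        exact absurd (hex i h1) (not_lt.2 h2)
  · have e1 : (off (Function.update v i b) i ∧
        pr (Function.update v i b) i ≤ Function.update v i b i) ↔ (off v i ∧ pr v i ≤ b) := by
      rw [hoff, hpr, Function.update_self]
    by_cases h1 : off v i ∧ pr v i ≤ v i
    · rw [posted_alloc_pos h1.1 h1.2, posted_pay_pos h1.1 h1.2]
      by_cases h3 : off v i ∧ pr v i ≤ b
      · rw [posted_alloc_pos (e1.2 h3).1 (e1.2 h3).2, posted_pay_pos (e1.2 h3).1 (e1.2 h3).2, hpr]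
      · rw [posted_alloc_neg (fun h => h3 (e1.1 h)), posted_pay_neg (fun h => h3 (e1.1 h))]
        linarith [h1.2]
    · rw [posted_alloc_neg h1, posted_pay_neg h1]
      by_cases h3 : off v i ∧ pr v i ≤ b
      · rw [posted_alloc_pos (e1.2 h3).1 (e1.2 h3).2, posted_pay_pos (e1.2 h3).1 (e1.2 h3).2, hpr]
        have : ¬ pr v i ≤ v i := fun h => h1 ⟨h3.1, h⟩
        linarith
      · rw [posted_alloc_neg (fun h => h3 (e1.1 h)), posted_pay_neg (fun h => h3 (e1.1 h))]
  · simp only [posted]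
    split_ifs with h
    · linarith [h.2]
    · simp

/-! ### The distribution -/

section dist

variable {k : ℕ}

/-- The index type of the example. -/
abbrev Idx (k s : ℕ) : Type :=
  Σ j : Fin k, ({l // l ∈ comp j (s + 1)} ⊕ ({l // l ∈ comp j s} ⊕ {l // l ∈ comp j s}))

/-- The full value vector, the last bidder has value `1`. -/
noncomputable def full (δ : ℝ) (j : Fin k) (x : ℝ) (l : Fin k → ℕ) : Fin (k + 1) → ℝ :=
  Fin.snoc (α := fun _ => ℝ) (vec δ j x l) 1

lemma full_last (δ : ℝ) (j : Fin k) (x : ℝ) (l : Fin k → ℕ) : full δ j x l (Fin.last k) = 1 := by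
  simp [full]

lemma full_castSucc (δ : ℝ) (j : Fin k) (x : ℝ) (l : Fin k → ℕ) (i : Fin k) :
    full δ j x l i.castSucc = vec δ j x l i := by
  simp [full]

lemma full_pos {δ : ℝ} (hδ : 0 < δ) (j : Fin k) {x : ℝ} (hx : 0 < x) (l : Fin k → ℕ) :
    Pos (full δ j x l) := by
  intro i
  refine Fin.lastCases ?_ (fun i => ?_) i
  · rw [full_last]; norm_num
  · rw [full_castSucc]; exact vec_pos hδ j hx l i

lemma full_gt {δ : ℝ} (hδ : 0 < δ) (j : Fin k) {x : ℝ} (hx : 1 < x) (l : Fin k → ℕ) (i : Fin k) :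
    1 < full δ j x l i.castSucc := by
  rw [full_castSucc]
  unfold vec lab
  split_ifs
  · exact hx
  · have : 0 < δ * ((l i : ℝ) + 1) := by positivity
    linarith

/-- values of the example -/
noncomputable def xval (s : ℕ) (δ H : ℝ) : Idx k s → Fin (k + 1) → ℝ
  | ⟨j, Sum.inl l⟩ => full δ j 2 l.1
  | ⟨j, Sum.inr (Sum.inl l)⟩ => full δ j 2 l.1
  | ⟨j, Sum.inr (Sum.inr l)⟩ => full δ j H l.1

/-- weights of the example -/
noncomputable def xwt (s : ℕ) (H : ℝ) : Idx k s → ℝ
  | ⟨_, Sum.inl _⟩ => 1 / 2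
  | ⟨_, Sum.inr (Sum.inl _)⟩ => 1 / 2
  | ⟨_, Sum.inr (Sum.inr _)⟩ => 1 / H

lemma xwt_pos {s : ℕ} {H : ℝ} (hH : 0 < H) (ω : Idx k s) : 0 < xwt s H ω := by
  rcases ω with ⟨j, l | l | l⟩ <;> simp only [xwt] <;> positivity

lemma sum_idx {s : ℕ} {δ H : ℝ} (F : (Fin (k + 1) → ℝ) → ℝ) :
    ∑ ω : Idx k s, xwt s H ω * F (xval s δ H ω) =
      ∑ j : Fin k, ((∑ l ∈ comp j (s + 1), (1 / 2 : ℝ) * F (full δ j 2 l)) +
        (∑ l ∈ comp j s, (1 / 2 : ℝ) * F (full δ j 2 l)) +
        (∑ l ∈ comp j s, (1 / H : ℝ) * F (full δ j H l))) := by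
  rw [Fintype.sum_sigma]
  apply sum_congr rfl
  intro j _
  rw [Fintype.sum_sum_type, Fintype.sum_sum_type]
  simp only [xwt, xval]
  rw [← sum_coe_sort (comp j (s + 1)), ← sum_coe_sort (comp j s), ← sum_coe_sort (comp j s)]
  ring

/-- total weight -/
noncomputable def xtot (k s : ℕ) (H : ℝ) : ℝ := ∑ ω : Idx k s, xwt s H ω

lemma comp_nonempty (hk : 2 ≤ k) (j : Fin k) (m : ℕ) : (comp j m).Nonempty := by
  rw [← card_pos, card_comp]
  apply Nat.choose_pos
  omega

lemma xtot_pos {s : ℕ} {H : ℝ} (hk : 2 ≤ k) (hH : 0 < H) : 0 < xtot k s H := by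
  unfold xtot
  obtain ⟨l, hl⟩ := comp_nonempty hk (⟨0, by omega⟩ : Fin k) (s + 1)
  have : Nonempty (Idx k s) := ⟨⟨⟨0, by omega⟩, Sum.inl ⟨l, hl⟩⟩⟩
  exact sum_pos (fun ω _ => xwt_pos hH ω) univ_nonempty

/-- The distribution of the example. -/
noncomputable def xdist (hk : 2 ≤ k) (s : ℕ) {δ H : ℝ} (hδ : 0 < δ) (hH : 2 < H) :
    Dist (k + 1) where
  Ω := Idx k s
  prob ω := xwt s H ω / xtot k s H
  val := xval s δ H
  prob_pos ω := div_pos (xwt_pos (by linarith) ω) (xtot_pos hk (by linarith))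
  prob_sum := by
    rw [← sum_div]
    exact div_self (xtot_pos hk (by linarith)).ne'
  val_pos ω := by
    rcases ω with ⟨j, l | l | l⟩ <;> simp only [xval]
    · exact full_pos hδ j (by norm_num) _
    · exact full_pos hδ j (by norm_num) _
    · exact full_pos hδ j (by linarith) _

lemma xval_last {s : ℕ} {δ H : ℝ} (ω : Idx k s) : xval s δ H ω (Fin.last k) = 1 := by
  rcases ω with ⟨j, l | l | l⟩ <;> simp only [xval, full_last]

lemma xval_gt {s : ℕ} {δ H : ℝ} (hδ : 0 < δ) (hH : 2 < H) (ω : Idx k s) (i : Fin k) :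
    1 < xval s δ H ω i.castSucc := by
  rcases ω with ⟨j, l | l | l⟩ <;> simp only [xval]
  · exact full_gt hδ j (by norm_num) _ _
  · exact full_gt hδ j (by norm_num) _ _
  · exact full_gt hδ j (by linarith) _ _

lemma top_eq {v : Fin (k + 1) → ℝ} (h1 : v (Fin.last k) = 1) (h2 : ∀ i : Fin k, 1 < v i.castSucc) :
    top k v = univ.erase (Fin.last k) := by
  ext i
  simp only [top, mem_filter, mem_univ, true_and, mem_erase, ne_eq, and_true]
  constructor
  · rintro hlt rfl
    have : (univ.filter fun j => v (Fin.last k) < v j ∨ (v (Fin.last k) = v j ∧ j < Fin.last k)) ⊇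
        univ.erase (Fin.last k) := by
      intro j hj
      simp only [mem_filter, mem_univ, true_and]
      rw [mem_erase] at hj
      left
      obtain ⟨j', rfl⟩ := Fin.exists_castSucc_eq.2 hj.1
      rw [h1]; exact h2 j'
    have h3 := card_le_card this
    rw [card_erase_of_mem (mem_univ _), card_univ, Fintype.card_fin] at h3
    omega
  · intro hi
    obtain ⟨i', rfl⟩ := Fin.exists_castSucc_eq.2 hi
    have : (univ.filter fun j => v i'.castSucc < v j ∨ (v i'.castSucc = v j ∧ j < i'.castSucc)) ⊆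
        (univ.erase (Fin.last k)).erase i'.castSucc := by
      intro j hj
      simp only [mem_filter, mem_univ, true_and] at hj
      rw [mem_erase, mem_erase]
      refine ⟨?_, ?_, mem_univ _⟩
      · rintro rfl
        rcases hj with h | h
        · exact lt_irrefl _ h
        · exact lt_irrefl _ h.2
      · rintro rfl
        have := h2 i'
        rcases hj with h | h
        · rw [h1] at h; linarith
        · rw [h1] at h; linarith [h.1]
    have h3 := card_le_card this
    rw [card_erase_of_mem (by simp [Fin.castSucc_ne_last]), card_erase_of_mem (mem_univ _), card_univ,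
      Fintype.card_fin] at h3
    have := i'.isLt
    omega

/-- The bidders other than the last one. -/
def eqv (k : ℕ) : Fin k ≃ {i : Fin (k + 1) // i ∈ (univ.erase (Fin.last k) : Finset (Fin (k + 1)))}
    where
  toFun i := ⟨i.castSucc, by simp [Fin.castSucc_ne_last]⟩
  invFun i := i.1.castLT (Fin.val_lt_last (by have := i.2; rw [mem_erase] at this; exact this.1))
  left_inv i := by simp
  right_inv i := by
    apply Subtype.ext
    simp

/-- Upper bound for the revenue of any rule that sells only to the top `k` bidders. -/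
lemma rule_le (hk : 2 ≤ k) (s : ℕ) {δ H τ : ℝ} (hδ : 0 < δ) (hH : 2 < H) (hτ : δ * (s + 2) ≤ τ)
    (A : Rule (k + 1)) (hA : IsLookahead k (xdist hk s hδ hH) A) :
    (xdist hk s hδ hH).ruleRevenue k A ≤
      (∑ j : Fin k, ((1 + τ) * (comp j (s + 1)).card + (1 + 2 / H) * (1 + τ) * (comp j s).card)) /
        xtot k s H := by
  classical
  have hH0 : 0 < H := by linarith
  set K0 : Finset (Fin (k + 1)) := univ.erase (Fin.last k) with hK0
  have htop : ∀ ω : Idx k s, top k (xval s δ H ω) = K0 := fun ω =>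
    top_eq (xval_last ω) (xval_gt hδ hH ω)
  have hc : ∀ ω : Idx k s, (fun j : {j : Fin (k + 1) // j ∉ K0} => xval s δ H ω j) =
      fun _ => (1 : ℝ) := by
    intro ω
    funext j
    have h1 : j.1 = Fin.last k := by
      by_contra hne
      exact j.2 (mem_erase.2 ⟨hne, mem_univ _⟩)
    rw [h1]
    exact xval_last ω
  set M0 : Mech {i : Fin (k + 1) // i ∈ K0} := A K0 fun _ => 1 with hM0
  -- validity
  have hval : M0.Valid := by
    obtain ⟨l, hl⟩ := comp_nonempty hk (⟨0, by omega⟩ : Fin k) (s + 1)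
    let ω0 : Idx k s := ⟨⟨0, by omega⟩, Sum.inl ⟨l, hl⟩⟩
    have h1 := (hA ω0).1
    have h2 : ∀ K : Finset (Fin (k + 1)), K = K0 →
        (A K fun j => xval s δ H ω0 j).Valid → M0.Valid := by
      intro K hK
      subst hK
      rw [hc ω0]
      exact id
    exact h2 _ (htop ω0) h1
  set G : Finset (Fin (k + 1)) → (Fin (k + 1) → ℝ) → ℝ := fun K v =>
    ∑ i, (A K fun j => v j).pay (fun i' => v i') i with hG
  have e1 : (xdist hk s hδ hH).ruleRevenue k A =
      ∑ ω : Idx k s, xwt s H ω / xtot k s H * G (top k (xval s δ H ω)) (xval s δ H ω) := rfl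
  have hM' := hval.reindex (eqv k)
  set M' := M0.reindex (eqv k) with hM'def
  have e2 : ∀ ω : Idx k s, G (top k (xval s δ H ω)) (xval s δ H ω) =
      ∑ i, M'.pay (fun i' : Fin k => xval s δ H ω i'.castSucc) i := by
    intro ω
    rw [htop ω]
    simp only [hG]
    rw [hc ω, ← Equiv.sum_comp (eqv k)]
    apply sum_congr rfl
    intro i _
    have h3 : (fun i' : {i : Fin (k + 1) // i ∈ K0} => xval s δ H ω i') =
        (fun i' : Fin k => xval s δ H ω i'.castSucc) ∘ (eqv k).symm := by
      funext a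
      have : ((eqv k).symm a).castSucc = a.1 :=
        congrArg Subtype.val ((eqv k).apply_symm_apply a)
      simp only [Function.comp_apply, this]
    rw [h3]
    rfl
  rw [e1]
  simp only [e2]
  have e3 : ∑ ω : Idx k s, xwt s H ω / xtot k s H *
      ∑ i, M'.pay (fun i' : Fin k => xval s δ H ω i'.castSucc) i =
      (∑ ω : Idx k s, xwt s H ω *
        ∑ i, M'.pay (fun i' : Fin k => xval s δ H ω i'.castSucc) i) / xtot k s H := by
    rw [sum_div]
    apply sum_congr rfl
    intro ω _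
    ring
  rw [e3]
  apply div_le_div_of_nonneg_right _ (xtot_pos hk hH0).le
  rw [sum_idx (fun v => ∑ i, M'.pay (fun i' : Fin k => v i'.castSucc) i)]
  apply sum_le_sum
  intro j _
  have := bound_j (s := s) hM' hδ hτ hH j
  have e4 : ∀ (x : ℝ) (l : Fin k → ℕ), (fun i' : Fin k => full δ j x l i'.castSucc) = vec δ j x l := by
    intro x l
    funext i
    exact full_castSucc δ j x l i
  simp only [e4]
  exact this

/-! ### The optimal revenue -/

lemma Dist.bddAbove {n : ℕ} (D : Dist n) :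
    BddAbove {r : ℝ | ∃ M : Mech (Fin n), M.Valid ∧ r = D.revenue M} := by
  refine ⟨∑ ω, D.prob ω * ∑ i, D.val ω i, ?_⟩
  rintro r ⟨M, hM, rfl⟩
  unfold Dist.revenue
  apply sum_le_sum
  intro ω _
  apply mul_le_mul_of_nonneg_left _ (D.prob_pos ω).le
  apply sum_le_sum
  intro i _
  have h1 := hM.pay_le (D.val_pos ω) i
  have h2 : M.alloc (D.val ω) i ≤ 1 :=
    (single_le_sum (f := fun i => M.alloc (D.val ω) i)
      (fun i _ => hM.alloc_nonneg _ (D.val_pos ω) i) (mem_univ i)).trans
      (hM.alloc_sum _ (D.val_pos ω))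
  have h3 := D.val_pos ω i
  nlinarith

/-- the values of the bidders other than `j` (and the last one) are labels with sum `m` -/
def Pat (δ : ℝ) (m : ℕ) (v : Fin (k + 1) → ℝ) (j : Fin k) : Prop :=
  ∃ l ∈ comp j m, ∀ i, i ≠ j → v i.castSucc = lab δ (l i)

open Classical in
/-- price offered to bidder `j` -/
noncomputable def jprice (δ H : ℝ) (s : ℕ) (v : Fin (k + 1) → ℝ) (j : Fin k) : ℝ :=
  if Pat δ (s + 1) v j then 2 else H

/-- bidder `j` buys -/
def jsold (δ H : ℝ) (s : ℕ) (v : Fin (k + 1) → ℝ) (j : Fin k) : Prop :=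
  (Pat δ (s + 1) v j ∨ Pat δ s v j) ∧ jprice δ H s v j ≤ v j.castSucc

/-- offers -/
def offx (δ H : ℝ) (s : ℕ) (v : Fin (k + 1) → ℝ) : Fin (k + 1) → Prop :=
  Fin.snoc (α := fun _ => Prop) (fun j => Pat δ (s + 1) v j ∨ Pat δ s v j) (∀ j, ¬ jsold δ H s v j)

/-- prices -/
noncomputable def prx (δ H : ℝ) (s : ℕ) (v : Fin (k + 1) → ℝ) : Fin (k + 1) → ℝ :=
  Fin.snoc (α := fun _ => ℝ) (fun j => jprice δ H s v j) 1

lemma pat_update (δ : ℝ) (m : ℕ) (v : Fin (k + 1) → ℝ) (j : Fin k) (b : ℝ) :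
    Pat δ m (Function.update v j.castSucc b) j ↔ Pat δ m v j := by
  unfold Pat
  constructor
  · rintro ⟨l, hl, h⟩
    refine ⟨l, hl, fun i hi => ?_⟩
    rw [← h i hi, Function.update_of_ne]
    exact fun h' => hi (Fin.castSucc_injective _ h')
  · rintro ⟨l, hl, h⟩
    refine ⟨l, hl, fun i hi => ?_⟩
    rw [← h i hi, Function.update_of_ne]
    exact fun h' => hi (Fin.castSucc_injective _ h')

lemma pat_update_last (δ : ℝ) (m : ℕ) (v : Fin (k + 1) → ℝ) (j : Fin k) (b : ℝ) :
    Pat δ m (Function.update v (Fin.last k) b) j ↔ Pat δ m v j := by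
  unfold Pat
  have : ∀ i : Fin k, Function.update v (Fin.last k) b i.castSucc = v i.castSucc := by
    intro i
    rw [Function.update_of_ne (Fin.castSucc_ne_last i)]
  simp only [this]

lemma lab_lt_two {δ τ : ℝ} {s : ℕ} (hδ : 0 < δ) (hτ : δ * (s + 2) ≤ τ) (hτ1 : τ < 1) {m : ℕ}
    (hm : m ≤ s + 1) : lab δ m < 2 := by
  unfold lab
  have : (m : ℝ) ≤ s + 1 := by exact_mod_cast hm
  nlinarith

lemma jprice_pos {δ H : ℝ} {s : ℕ} {v : Fin (k + 1) → ℝ} {j : Fin k} (h : Pat δ (s + 1) v j) :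
    jprice δ H s v j = 2 := by
  unfold jprice; exact if_pos h

lemma jprice_neg {δ H : ℝ} {s : ℕ} {v : Fin (k + 1) → ℝ} {j : Fin k} (h : ¬ Pat δ (s + 1) v j) :
    jprice δ H s v j = H := by
  unfold jprice; exact if_neg h

lemma jprice_congr {δ H : ℝ} {s : ℕ} {v w : Fin (k + 1) → ℝ} {j : Fin k}
    (h : Pat δ (s + 1) v j ↔ Pat δ (s + 1) w j) : jprice δ H s v j = jprice δ H s w j := by
  by_cases h1 : Pat δ (s + 1) v j
  · rw [jprice_pos h1, jprice_pos (h.1 h1)]
  · rw [jprice_neg h1, jprice_neg (fun h2 => h1 (h.2 h2))]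

lemma pat_lt {δ τ : ℝ} {s : ℕ} (hδ : 0 < δ) (hτ : δ * (s + 2) ≤ τ) (hτ1 : τ < 1)
    {v : Fin (k + 1) → ℝ} {j : Fin k} (h : Pat δ (s + 1) v j ∨ Pat δ s v j) {i : Fin k}
    (hi : i ≠ j) : v i.castSucc < 2 := by
  rcases h with ⟨l, hl, h⟩ | ⟨l, hl, h⟩
  · rw [h i hi]
    exact lab_lt_two hδ hτ hτ1 (comp_le hl hi)
  · rw [h i hi]
    exact lab_lt_two hδ hτ hτ1 ((comp_le hl hi).trans (Nat.le_succ _))

lemma jprice_ge {δ H : ℝ} {s : ℕ} (hH : 2 < H) (v : Fin (k + 1) → ℝ) (j : Fin k) :
    2 ≤ jprice δ H s v j := by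
  unfold jprice
  split_ifs <;> linarith

lemma xmech_valid {δ τ H : ℝ} {s : ℕ} (hδ : 0 < δ) (hτ : δ * (s + 2) ≤ τ) (hτ1 : τ < 1)
    (hH : 2 < H) : (posted (offx (k := k) δ H s) (prx δ H s)).Valid := by
  have hjs : ∀ (v : Fin (k + 1) → ℝ) (b : ℝ) (j : Fin k),
      jsold δ H s (Function.update v (Fin.last k) b) j ↔ jsold δ H s v j := by
    intro v b j
    unfold jsold
    rw [jprice_congr (pat_update_last δ (s + 1) v j b), pat_update_last, pat_update_last,
      Function.update_of_ne (Fin.castSucc_ne_last j)]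
  apply posted_valid
  · intro v i b
    refine Fin.lastCases ?_ (fun j => ?_) i
    · simp only [offx, Fin.snoc_last, hjs]
    · simp only [offx, Fin.snoc_castSucc, pat_update]
  · intro v i b
    refine Fin.lastCases ?_ (fun j => ?_) i
    · simp only [prx, Fin.snoc_last]
    · simp only [prx, Fin.snoc_castSucc]
      exact jprice_congr (pat_update δ (s + 1) v j b)
  · intro v hv i i'
    refine Fin.lastCases ?_ (fun j => ?_) i
    · refine Fin.lastCases ?_ (fun j' => ?_) i'
      · intro _ _; rfl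
      · simp only [offx, prx, Fin.snoc_last, Fin.snoc_castSucc]
        rintro ⟨h1, -⟩ h2
        exact absurd h2 (h1 j')
    · refine Fin.lastCases ?_ (fun j' => ?_) i'
      · simp only [offx, prx, Fin.snoc_last, Fin.snoc_castSucc]
        rintro h2 ⟨h1, -⟩
        exact absurd h2 (h1 j)
      · simp only [offx, prx, Fin.snoc_castSucc]
        rintro ⟨h1, h2⟩ ⟨h3, h4⟩
        by_contra hne
        have hne' : j' ≠ j := fun h => hne (by rw [h])
        have h5 := pat_lt hδ hτ hτ1 h1 hne'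
        have h6 := jprice_ge (δ := δ) (s := s) hH v j'
        linarith

lemma lab_inj {δ : ℝ} (hδ : 0 < δ) {a b : ℕ} (h : lab δ a = lab δ b) : a = b := by
  unfold lab at h
  have h1 : δ * ((a : ℝ) + 1) = δ * ((b : ℝ) + 1) := by linarith
  have h2 := mul_left_cancel₀ hδ.ne' h1
  have h3 : (a : ℝ) = b := by linarith
  exact_mod_cast h3

lemma pat_full {δ : ℝ} (hδ : 0 < δ) {j : Fin k} {x : ℝ} {l : Fin k → ℕ} {m m' : ℕ}
    (hl : l ∈ comp j m) : Pat δ m' (full δ j x l) j ↔ m' = m := by
  constructor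
  · rintro ⟨l', hl', h⟩
    rw [mem_comp] at hl hl'
    rw [← hl.1, ← hl'.1]
    apply sum_congr rfl
    intro i hi
    have hi' : i ≠ j := by simpa using hi
    have := h i hi'
    rw [full_castSucc] at this
    simp only [vec, if_neg hi'] at this
    exact (lab_inj hδ this).symm
  · rintro rfl
    refine ⟨l, hl, fun i hi => ?_⟩
    rw [full_castSucc]
    simp [vec, hi]

lemma pay_nonneg {δ H : ℝ} {s : ℕ} (hH : 2 < H) (v : Fin (k + 1) → ℝ) (i : Fin (k + 1)) :
    0 ≤ (posted (offx (k := k) δ H s) (prx δ H s)).pay v i := by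
  simp only [posted]
  split_ifs
  · refine Fin.lastCases ?_ (fun j => ?_) i
    · simp only [prx, Fin.snoc_last]; norm_num
    · simp only [prx, Fin.snoc_castSucc]
      have := jprice_ge (δ := δ) (s := s) hH v j
      linarith
  · exact le_rfl

lemma pay_ge {δ H : ℝ} {s : ℕ} (hH : 2 < H) (v : Fin (k + 1) → ℝ) (i : Fin (k + 1)) {c : ℝ}
    (hc : (posted (offx (k := k) δ H s) (prx δ H s)).pay v i = c) :
    c ≤ ∑ i, (posted (offx (k := k) δ H s) (prx δ H s)).pay v i := by
  rw [← hc]
  exact single_le_sum (f := fun i => (posted (offx (k := k) δ H s) (prx δ H s)).pay v i)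
    (fun i _ => pay_nonneg hH v i) (mem_univ i)

lemma opt_ge (hk : 2 ≤ k) (s : ℕ) {δ H τ : ℝ} (hδ : 0 < δ) (hH : 2 < H) (hτ : δ * (s + 2) ≤ τ)
    (hτ1 : τ < 1) :
    (∑ j : Fin k, (((comp j (s + 1)).card : ℝ) + 3 / 2 * (comp j s).card)) / xtot k s H ≤
      (xdist hk s hδ hH).OPT := by
  have hH0 : 0 < H := by linarith
  refine le_trans ?_ (le_csSup (Dist.bddAbove _) ⟨_, xmech_valid hδ hτ hτ1 hH, rfl⟩)
  have e1 : (xdist hk s hδ hH).revenue (posted (offx (k := k) δ H s) (prx δ H s)) =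
      (∑ ω : Idx k s, xwt s H ω *
        ∑ i, (posted (offx (k := k) δ H s) (prx δ H s)).pay (xval s δ H ω) i) / xtot k s H := by
    rw [sum_div]
    apply sum_congr rfl
    intro ω _
    simp only [xdist]
    ring
  rw [e1]
  apply div_le_div_of_nonneg_right _ (xtot_pos hk hH0).le
  rw [sum_idx (fun v => ∑ i, (posted (offx (k := k) δ H s) (prx δ H s)).pay v i)]
  apply sum_le_sum
  intro j _
  have hvj : ∀ (x : ℝ) (l : Fin k → ℕ), full δ j x l j.castSucc = x := by
    intro x l; rw [full_castSucc]; simp [vec]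
  have h1 : ∀ l ∈ comp j (s + 1), (1 : ℝ) ≤ 1 / 2 *
      ∑ i, (posted (offx (k := k) δ H s) (prx δ H s)).pay (full δ j 2 l) i := by
    intro l hl
    have hP : Pat δ (s + 1) (full δ j 2 l) j := (pat_full hδ hl).2 rfl
    have h0 : prx δ H s (full δ j 2 l) j.castSucc = 2 := by
      simp only [prx, Fin.snoc_castSucc]; exact jprice_pos hP
    have := pay_ge (δ := δ) (s := s) hH (full δ j 2 l) j.castSucc (c := 2) (by
      rw [posted_pay_pos _ _, h0]
      · simp only [offx, Fin.snoc_castSucc]; exact Or.inl hP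
      · rw [h0, hvj])
    linarith
  have h2 : ∀ l ∈ comp j s, (1 / 2 : ℝ) ≤ 1 / 2 *
      ∑ i, (posted (offx (k := k) δ H s) (prx δ H s)).pay (full δ j 2 l) i := by
    intro l hl
    have hP : ¬ Pat δ (s + 1) (full δ j 2 l) j := by rw [pat_full hδ hl]; omega
    have hns : ∀ j', ¬ jsold δ H s (full δ j 2 l) j' := by
      rintro j' ⟨ha, hb⟩
      by_cases hj : j' = j
      · subst hj
        rw [jprice_neg hP, hvj] at hb
        linarith
      · have := pat_lt hδ hτ hτ1 ha (i := j) (fun h => hj h.symm)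
        rw [hvj] at this
        linarith
    have h0 : prx δ H s (full δ j 2 l) (Fin.last k) = 1 := by
      simp only [prx, Fin.snoc_last]
    have := pay_ge (δ := δ) (s := s) hH (full δ j 2 l) (Fin.last k) (c := 1) (by
      rw [posted_pay_pos _ _, h0]
      · simp only [offx, Fin.snoc_last]; exact hns
      · rw [h0, full_last])
    linarith
  have h3 : ∀ l ∈ comp j s, (1 : ℝ) ≤ 1 / H *
      ∑ i, (posted (offx (k := k) δ H s) (prx δ H s)).pay (full δ j H l) i := by
    intro l hl
    have hP : ¬ Pat δ (s + 1) (full δ j H l) j := by rw [pat_full hδ hl]; omega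
    have hP' : Pat δ s (full δ j H l) j := (pat_full hδ hl).2 rfl
    have h0 : prx δ H s (full δ j H l) j.castSucc = H := by
      simp only [prx, Fin.snoc_castSucc]; exact jprice_neg hP
    have := pay_ge (δ := δ) (s := s) hH (full δ j H l) j.castSucc (c := H) (by
      rw [posted_pay_pos _ _, h0]
      · simp only [offx, Fin.snoc_castSucc]; exact Or.inr hP'
      · rw [h0, hvj])
    calc (1 : ℝ) = 1 / H * H := by field_simp
      _ ≤ _ := mul_le_mul_of_nonneg_left this (by positivity)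
  have g1 := sum_le_sum h1
  have g2 := sum_le_sum h2
  have g3 := sum_le_sum h3
  simp only [sum_const, nsmul_eq_mul, mul_one] at g1 g2 g3
  linarith

end dist

end Pool.Agent.L7h69.Look
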