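import Pool.Agent.L7h69.Look.Defs

set_option autoImplicit false

/-!
Sanity facts about the definitions: for every distribution there is a `k`-lookahead rule (the
revenue-maximising mechanisms for the distributions `D_K` exist), `Dist.rev` is the supremum of a
nonempty set that is bounded above, it is nonnegative, and `rho k` is the infimum of a set that is
bounded below.
-/

namespace Pool.Agent.L7h69.Look

open Finset

section exist

variable {ι : Type} [Fintype ι] [DecidableEq ι]

/-- Replace the payments by nonnegative ones without losing revenue. -/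
lemma Mech.Valid.normalize {M : Mech ι} (h : M.Valid) :
    ∃ M' : Mech ι, M'.Valid ∧ (∀ v, Pos v → ∀ i, M.pay v i ≤ M'.pay v i) ∧
      (∀ v, Pos v → ∀ i, 0 ≤ M'.pay v i ∧ M'.pay v i ≤ v i) := by
  classical
  set g : (ι → ℝ) → ι → ℝ := fun v i => ⨅ b : {b : ℝ // 0 < b}, M.pay (Function.update v i b) i
    with hg
  have hupd : ∀ (v : ι → ℝ) (i : ι) (b : ℝ), Pos v → 0 < b → Pos (Function.update v i b) := by
    intro v i b hv hb j
    by_cases hj : j = i
    · subst hj; simpa using hb
    · simpa [Function.update_of_ne hj] using hv j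
  have hlow : ∀ v, Pos v → ∀ i (b : ℝ), 0 < b →
      -(M.alloc v i * v i - M.pay v i) ≤ M.pay (Function.update v i b) i := by
    intro v hv i b hb
    have h1 := h.truthful v hv i b hb
    have h2 := h.alloc_nonneg _ (hupd v i b hv hb) i
    have h3 := mul_nonneg h2 (hv i).le
    linarith
  have hbdd : ∀ v, Pos v → ∀ i,
      BddBelow (Set.range fun b : {b : ℝ // 0 < b} => M.pay (Function.update v i b) i) := by
    intro v hv i
    refine ⟨-(M.alloc v i * v i - M.pay v i), ?_⟩
    rintro _ ⟨b, rfl⟩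
    exact hlow v hv i b b.2
  have hgle : ∀ v, Pos v → ∀ i, g v i ≤ M.pay v i := by
    intro v hv i
    have := ciInf_le (hbdd v hv i) ⟨v i, hv i⟩
    simpa [hg] using this
  have : Nonempty {b : ℝ // 0 < b} := ⟨⟨1, one_pos⟩⟩
  have hgge : ∀ v, Pos v → ∀ i, -(M.alloc v i * v i - M.pay v i) ≤ g v i := by
    intro v hv i
    exact le_ciInf fun b => hlow v hv i b b.2
  have hginv : ∀ (v : ι → ℝ) i b, g (Function.update v i b) i = g v i := by
    intro v i b
    simp [hg, Function.update_idem]
  have halloc : ∀ v, Pos v → ∀ i, M.alloc v i ≤ 1 := by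
    intro v hv i
    exact (single_le_sum (f := fun i => M.alloc v i)
      (fun i _ => h.alloc_nonneg _ hv i) (mem_univ i)).trans (h.alloc_sum _ hv)
  have hir : ∀ v, Pos v → ∀ i, M.pay v i - min (g v i) 0 ≤ M.alloc v i * v i := by
    intro v hv i
    have h1 := h.ir v hv i
    have h2 := hgge v hv i
    rcases le_total (g v i) 0 with h3 | h3
    · rw [min_eq_left h3]; linarith
    · rw [min_eq_right h3]; linarith
  refine ⟨⟨M.alloc, fun v i => M.pay v i - min (g v i) 0⟩,
    ⟨h.alloc_nonneg, h.alloc_sum, ?_, ?_⟩, ?_, ?_⟩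
  · intro v hv i b hb
    have := h.truthful v hv i b hb
    simp only [hginv]
    linarith
  · intro v hv i
    have := hir v hv i
    simp only
    linarith
  · intro v hv i
    have := min_le_right (g v i) 0
    simp only
    linarith
  · intro v hv i
    have h1 := hir v hv i
    have h2 := halloc v hv i
    have h3 := hv i
    have h4 := hgle v hv i
    have h5 := min_le_left (g v i) 0
    simp only
    constructor
    · linarith
    · nlinarith

/-- Existence of revenue-maximising mechanisms for finitely supported weights. -/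
lemma exists_optimal {Ω : Type} (T : Finset Ω) (q : Ω → ℝ) (u : Ω → ι → ℝ)
    (hq : ∀ ω ∈ T, 0 ≤ q ω) (hu : ∀ ω ∈ T, Pos (u ω)) :
    ∃ M : Mech ι, M.Valid ∧ (∀ v i, 0 ≤ M.pay v i) ∧ ∀ M' : Mech ι, M'.Valid →
      ∑ ω ∈ T, q ω * ∑ i, M'.pay (u ω) i ≤ ∑ ω ∈ T, q ω * ∑ i, M.pay (u ω) i := by
  classical
  let Y := (ι → ℝ) → ι → ℝ
  let C1 : Set Y := Set.univ.pi fun _ => Set.univ.pi fun _ => Set.Icc 0 1
  let C2 : Set Y := Set.univ.pi fun v => Set.univ.pi fun i => Set.Icc 0 (max (v i) 0)
  have hC1 : IsCompact C1 := isCompact_univ_pi fun _ => isCompact_univ_pi fun _ => isCompact_Icc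
  have hC2 : IsCompact C2 := isCompact_univ_pi fun _ => isCompact_univ_pi fun _ => isCompact_Icc
  let V : Set (Y × Y) := {z | (Mech.mk z.1 z.2).Valid}
  have ev1 : ∀ (v : ι → ℝ) (i : ι), Continuous fun z : Y × Y => z.1 v i := fun v i =>
    (continuous_apply i).comp ((continuous_apply v).comp continuous_fst)
  have ev2 : ∀ (v : ι → ℝ) (i : ι), Continuous fun z : Y × Y => z.2 v i := fun v i =>
    (continuous_apply i).comp ((continuous_apply v).comp continuous_snd)
  have hV : IsClosed V := by
    have e : V = {z : Y × Y | ∀ v, Pos v → ∀ i, 0 ≤ z.1 v i} ∩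
        {z : Y × Y | ∀ v, Pos v → ∑ i, z.1 v i ≤ 1} ∩
        {z : Y × Y | ∀ v, Pos v → ∀ i b, 0 < b →
          z.1 (Function.update v i b) i * v i - z.2 (Function.update v i b) i
            ≤ z.1 v i * v i - z.2 v i} ∩
        {z : Y × Y | ∀ v, Pos v → ∀ i, 0 ≤ z.1 v i * v i - z.2 v i} := by
      ext z
      constructor
      · intro h
        exact ⟨⟨⟨h.alloc_nonneg, h.alloc_sum⟩, h.truthful⟩, h.ir⟩
      · rintro ⟨⟨⟨h1, h2⟩, h3⟩, h4⟩
        exact ⟨h1, h2, h3, h4⟩
    rw [e]
    refine IsClosed.inter (IsClosed.inter (IsClosed.inter ?_ ?_) ?_) ?_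
    · simp only [Set.ofPred_forall]
      exact isClosed_iInter fun v => isClosed_iInter fun _ => isClosed_iInter fun i =>
        isClosed_le continuous_const (ev1 v i)
    · simp only [Set.ofPred_forall]
      exact isClosed_iInter fun v => isClosed_iInter fun _ =>
        isClosed_le (continuous_finsetSum _ fun i _ => ev1 v i) continuous_const
    · simp only [Set.ofPred_forall]
      exact isClosed_iInter fun v => isClosed_iInter fun _ => isClosed_iInter fun i =>
        isClosed_iInter fun b => isClosed_iInter fun _ =>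
        isClosed_le (((ev1 _ i).mul continuous_const).sub (ev2 _ i))
          (((ev1 v i).mul continuous_const).sub (ev2 v i))
    · simp only [Set.ofPred_forall]
      exact isClosed_iInter fun v => isClosed_iInter fun _ => isClosed_iInter fun i =>
        isClosed_le continuous_const (((ev1 v i).mul continuous_const).sub (ev2 v i))
  have hcomp : IsCompact ((C1 ×ˢ C2) ∩ V) := (hC1.prod hC2).inter_right hV
  have hne : ((C1 ×ˢ C2) ∩ V).Nonempty := by
    refine ⟨(fun _ _ => 0, fun _ _ => 0), ⟨⟨?_, ?_⟩, ?_⟩⟩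
    · intro v _ i _; simp
    · intro v _ i _; simp
    · refine ⟨fun v _ i => le_rfl, fun v _ => by simp, fun v _ i b _ => by simp,
        fun v _ i => by simp⟩
  have hcont : Continuous fun z : Y × Y => ∑ ω ∈ T, q ω * ∑ i, z.2 (u ω) i :=
    continuous_finsetSum _ fun ω _ =>
      continuous_const.mul (continuous_finsetSum _ fun i _ => ev2 (u ω) i)
  obtain ⟨z, hz, hmax⟩ := hcomp.exists_isMaxOn hne hcont.continuousOn
  refine ⟨⟨z.1, z.2⟩, hz.2, fun v i => (hz.1.2 v (Set.mem_univ _) i (Set.mem_univ _)).1, ?_⟩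
  intro M hM
  obtain ⟨M', hM', h1, h2⟩ := hM.normalize
  -- restrict to positive bid vectors
  let z' : Y × Y := (fun v i => if Pos v then M'.alloc v i else 0,
    fun v i => if Pos v then M'.pay v i else 0)
  have hpos1 : ∀ v, Pos v → ∀ i, z'.1 v i = M'.alloc v i := fun v hv i => if_pos hv
  have hpos2 : ∀ v, Pos v → ∀ i, z'.2 v i = M'.pay v i := fun v hv i => if_pos hv
  have hupd : ∀ (v : ι → ℝ) (i : ι) (b : ℝ), Pos v → 0 < b → Pos (Function.update v i b) := by
    intro v i b hv hb j
    by_cases hj : j = i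
    · subst hj; simpa using hb
    · simpa [Function.update_of_ne hj] using hv j
  have hz' : z' ∈ (C1 ×ˢ C2) ∩ V := by
    refine ⟨⟨?_, ?_⟩, ?_⟩
    · intro v _ i _
      by_cases hv : Pos v
      · rw [Set.mem_Icc, hpos1 v hv]
        exact ⟨hM'.alloc_nonneg v hv i,
          (single_le_sum (f := fun i => M'.alloc v i)
            (fun i _ => hM'.alloc_nonneg _ hv i) (mem_univ i)).trans (hM'.alloc_sum _ hv)⟩
      · have : z'.1 v i = 0 := if_neg hv
        rw [Set.mem_Icc, this]
        exact ⟨le_rfl, zero_le_one⟩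
    · intro v _ i _
      by_cases hv : Pos v
      · rw [Set.mem_Icc, hpos2 v hv]
        exact ⟨(h2 v hv i).1, (h2 v hv i).2.trans (le_max_left _ _)⟩
      · have : z'.2 v i = 0 := if_neg hv
        rw [Set.mem_Icc, this]
        exact ⟨le_rfl, le_max_right _ _⟩
    · refine ⟨fun v hv i => ?_, fun v hv => ?_, fun v hv i b hb => ?_, fun v hv i => ?_⟩
      · simp only [hpos1 v hv]; exact hM'.alloc_nonneg v hv i
      · simp only [hpos1 v hv]; exact hM'.alloc_sum v hv
      · simp only [hpos1 v hv, hpos2 v hv, hpos1 _ (hupd v i b hv hb), hpos2 _ (hupd v i b hv hb)]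
        exact hM'.truthful v hv i b hb
      · simp only [hpos1 v hv, hpos2 v hv]; exact hM'.ir v hv i
  have h3 := hmax hz'
  simp only at h3
  refine le_trans ?_ h3
  apply sum_le_sum
  intro ω hω
  apply mul_le_mul_of_nonneg_left _ (hq ω hω)
  apply sum_le_sum
  intro i _
  rw [hpos2 _ (hu ω hω)]
  exact h1 _ (hu ω hω) i

end exist

/-- Every finitely supported distribution has a `k`-lookahead rule, even one that never pays
money to the bidders. -/
theorem exists_isLookahead' {n : ℕ} (k : ℕ) (D : Dist n) :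
    ∃ A : Rule n, IsLookahead k D A ∧ ∀ K c v i, 0 ≤ (A K c).pay v i := by
  classical
  have h : ∀ (K : Finset (Fin n)) (c : {j : Fin n // j ∉ K} → ℝ),
      ∃ M : Mech {i : Fin n // i ∈ K}, M.Valid ∧ (∀ v i, 0 ≤ M.pay v i) ∧
        ∀ M' : Mech {i : Fin n // i ∈ K}, M'.Valid →
        D.condRevenue K c M' ≤ D.condRevenue K c M := by
    intro K c
    obtain ⟨M, hM, h0, hmax⟩ := exists_optimal (ι := {i : Fin n // i ∈ K}) (D.event K c) D.prob
      (fun ω i => D.val ω i) (fun ω _ => (D.prob_pos ω).le) (fun ω _ i => D.val_pos ω i)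
    refine ⟨M, hM, h0, fun M' hM' => ?_⟩
    unfold Dist.condRevenue
    exact div_le_div_of_nonneg_right (hmax M' hM') (sum_nonneg fun ω _ => (D.prob_pos ω).le)
  choose A hA hA0 hA1 using h
  exact ⟨A, fun ω => ⟨hA _ _, hA1 _ _⟩, hA0⟩

/-- Every finitely supported distribution has a `k`-lookahead rule. -/
theorem exists_isLookahead {n : ℕ} (k : ℕ) (D : Dist n) : ∃ A : Rule n, IsLookahead k D A := by
  obtain ⟨A, hA, -⟩ := exists_isLookahead' k D
  exact ⟨A, hA⟩

/-- The revenues of the `k`-lookahead rules for `D` are bounded above. -/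
theorem bddAbove_rev {n : ℕ} (k : ℕ) (D : Dist n) :
    BddAbove {r : ℝ | ∃ A : Rule n, IsLookahead k D A ∧ r = D.ruleRevenue k A} := by
  refine ⟨∑ ω, D.prob ω * ∑ i : {i : Fin n // i ∈ top k (D.val ω)}, D.val ω i, ?_⟩
  rintro r ⟨A, hA, rfl⟩
  unfold Dist.ruleRevenue
  apply sum_le_sum
  intro ω _
  apply mul_le_mul_of_nonneg_left _ (D.prob_pos ω).le
  apply sum_le_sum
  intro i _
  have hp : Pos fun i' : {i : Fin n // i ∈ top k (D.val ω)} => D.val ω i' :=
    fun i' => D.val_pos ω i'
  have hM := (hA ω).1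
  have h1 := hM.ir _ hp i
  have h2 : (A (top k (D.val ω)) fun j => D.val ω j).alloc (fun i' => D.val ω i') i ≤ 1 :=
    (single_le_sum (f := fun i =>
      (A (top k (D.val ω)) fun j => D.val ω j).alloc (fun i' => D.val ω i') i)
      (fun i _ => hM.alloc_nonneg _ hp i) (mem_univ i)).trans (hM.alloc_sum _ hp)
  have h3 := hp i
  simp only at h1 h3
  nlinarith

/-- The revenue of the `k`-lookahead mechanism is nonnegative. -/
theorem rev_nonneg {n : ℕ} (k : ℕ) (D : Dist n) : 0 ≤ D.rev k := by
  obtain ⟨A, hA, h0⟩ := exists_isLookahead' k D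
  refine le_trans ?_ (le_csSup (bddAbove_rev k D) ⟨A, hA, rfl⟩)
  unfold Dist.ruleRevenue
  exact sum_nonneg fun ω _ => mul_nonneg (D.prob_pos ω).le (sum_nonneg fun i _ => h0 _ _ _ _)

/-- The ratios in the definition of `rho k` are bounded below by `0`. -/
theorem bddBelow_rho (k : ℕ) :
    BddBelow {r : ℝ | ∃ (n : ℕ) (D : Dist n), 0 < D.OPT ∧ r = D.rev k / D.OPT} := by
  refine ⟨0, ?_⟩
  rintro r ⟨n, D, hD, rfl⟩
  exact div_nonneg (rev_nonneg k D) hD.le

end Pool.Agent.L7h69.Look
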